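import Pool.Agent.H37.CP.Targets

/-! Row RMD of the board `cpe_modules`: from real monotone circuits to triangle dags. -/

namespace Pool.Agent.H11.CPE

open Finset Pool.Agent.H37.CP
open Pool.Agent.H1.LP (Clause viol Loc Sys supp ip)
open Pool.Agent.H96.KX (psz fac jun PDz)
open Pool.Agent.H91.AV (MomInd rhx bix kap)

open Classical in
theorem pf_RMD (hA : S_ABSC) (hQ : S_REQ) : S_RMD := by
  intro Y X _ _ n R FY FX V K δ hR hδ hY hKs hKer hV Ci A hFY hFX t p hd
  -- the nodes
  let w : Fin (Ci.out + 1) → X → ℝ := fun v x => -rval Ci.gate (FX x) v.1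
  let u : Fin (Ci.out + 1) → Y → ℝ := fun v y => -rval Ci.gate (FY y) v.1
  let dp : Fin (Ci.out + 1) → ℕ := fun v => rdep Ci.gate v.1
  let lY : Clause n → Set Y := fun C => {y | C ∉ FY y}
  let lX : Clause n → Finset X := fun C => univ.filter (fun x => C ∈ FX x)
  let e : Clause n → X → Fin R := fun C x =>
    if h : C ∈ FX x then (hV x C h).choose else ⟨0, by omega⟩
  have hker : Ker K lY lX δ := by
    refine hKer (Clause n) lY lX e ?_
    intro C y hy x hx
    have hx' : C ∈ FX x := (Finset.mem_filter.1 hx).2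
    have he : e C x = (hV x C hx').choose := dif_pos hx'
    rw [he]
    exact (hV x C hx').choose_spec y hy
  have hdag : Dag lY lX w u dp := by
    intro v
    obtain ⟨h1, h2, h3, _⟩ := hQ n Ci.gate v.1
    cases hg : Ci.gate v.1 with
    | cst r =>
      refine Or.inl ⟨∅, fun y x hxy => ?_⟩
      have h4 := (h1 r hg).1
      have h5 : -rval Ci.gate (FX x) v.1 < -rval Ci.gate (FY y) v.1 := hxy
      rw [h4, h4] at h5
      exact absurd h5 (lt_irrefl _)
    | inp C =>
      refine Or.inl ⟨C, fun y x hxy => ?_⟩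
      have h4 := (h2 C hg).1
      have h5 : -rval Ci.gate (FX x) v.1 < -rval Ci.gate (FY y) v.1 := hxy
      have h6 : C ∉ FY y := by
        intro hc
        rw [(h4 (FY y)).1 hc] at h5
        by_cases hc' : C ∈ FX x
        · rw [(h4 (FX x)).1 hc'] at h5
          linarith
        · rw [(h4 (FX x)).2 hc'] at h5
          linarith
      refine ⟨h6, Finset.mem_filter.2 ⟨Finset.mem_univ _, ?_⟩⟩
      by_contra hc
      rw [(h4 (FX x)).2 hc, (h4 (FY y)).2 h6] at h5
      linarith
    | op f hf j l =>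
      have h4 := h3 f hf j l hg
      have hj : j.1 < Ci.out + 1 := lt_trans j.2 v.2
      have hl : l.1 < Ci.out + 1 := lt_trans l.2 v.2
      refine Or.inr ⟨⟨j.1, hj⟩, ⟨l.1, hl⟩, ?_, ?_, fun y x hxy => ?_⟩
      · show rdep Ci.gate j.1 < rdep Ci.gate v.1
        rw [h4.2]
        exact Nat.lt_succ_of_le (le_max_left _ _)
      · show rdep Ci.gate l.1 < rdep Ci.gate v.1
        rw [h4.2]
        exact Nat.lt_succ_of_le (le_max_right _ _)
      · by_contra hc
        rw [not_or, not_lt, not_lt] at hc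
        have h5 : -rval Ci.gate (FX x) v.1 < -rval Ci.gate (FY y) v.1 := hxy
        have h6 : -rval Ci.gate (FY y) j.1 ≤ -rval Ci.gate (FX x) j.1 := hc.1
        have h7 : -rval Ci.gate (FY y) l.1 ≤ -rval Ci.gate (FX x) l.1 := hc.2
        rw [h4.1, h4.1] at h5
        have h8 := hf (rval Ci.gate (FX x) j.1) (rval Ci.gate (FY y) j.1)
          (rval Ci.gate (FX x) l.1) (rval Ci.gate (FY y) l.1) (by linarith) (by linarith)
        linarith
  have h := hA Y X (Clause n) (Fin (Ci.out + 1)) K lY lX δ hδ.le hker hKs hY w u dp hdag A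
    ⟨Ci.out, Nat.lt_succ_self _⟩ (fun y x hx => ?_) t p hd
  · rw [Fintype.card_fin] at h
    exact h
  · show -rval Ci.gate (FX x) Ci.out < -rval Ci.gate (FY y) Ci.out
    have h1 := hFY y
    have h2 := hFX x hx
    linarith

end Pool.Agent.H11.CPE
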